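import Mathlib

/-!
# Touching graphs of unit spheres: definitions

`helper70`, problem MP_facb47_co.
-/

namespace Pool.Agent.helper70.Sachs

/-- `M` is a set of centres of unit spheres in `ℝⁿ`, no two of which share an interior point. -/
def IsPacking {n : ℕ} (M : Set (EuclideanSpace ℝ (Fin n))) : Prop :=
  ∀ x ∈ M, ∀ y ∈ M, x ≠ y → 2 ≤ dist x y

/-- the touching graph: two centres are adjacent when they are at distance exactly `2`. -/
def touchingGraph {n : ℕ} (M : Set (EuclideanSpace ℝ (Fin n))) : SimpleGraph M where
  Adj x y := dist (x : EuclideanSpace ℝ (Fin n)) y = 2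
  symm := ⟨fun x y h => by rw [dist_comm]; exact h⟩
  loopless := ⟨fun x h => by
    rw [dist_self] at h
    exact absurd h (by norm_num)⟩

/-- `χ_n`, the supremum of the chromatic numbers of the touching graphs of packings of unit
spheres in `ℝⁿ`. -/
noncomputable def chi (n : ℕ) : ℕ∞ :=
  ⨆ M : {M : Set (EuclideanSpace ℝ (Fin n)) // IsPacking M}, (touchingGraph M.1).chromaticNumber

end Pool.Agent.helper70.Sachs
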