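import Mathlib

/-!
# Kerdock sets of quadratic forms over `F₂` and their character sums

`helper70`, problem MP_facb47_co.
-/

namespace Pool.Agent.helper70.Sachs

open Finset

/-- the sign character of `ZMod 2` -/
noncomputable def sg (a : ZMod 2) : ℝ := if a = 0 then 1 else -1

lemma sg_zero : sg 0 = 1 := by simp [sg]
lemma sg_one : sg 1 = -1 := by simp [sg]

lemma zmod2_cases (a : ZMod 2) : a = 0 ∨ a = 1 := by
  fin_cases a
  · left; rfl
  · right; rfl

lemma zmod2_add_self (a : ZMod 2) : a + a = 0 := CharTwo.add_self_eq_zero a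

lemma zmod2_mul_self (a : ZMod 2) : a * a = a := by
  rcases zmod2_cases a with h | h <;> simp [h]

lemma sg_add (a b : ZMod 2) : sg (a + b) = sg a * sg b := by
  have h11 : (1 : ZMod 2) + 1 = 0 := zmod2_add_self 1
  rcases zmod2_cases a with rfl | rfl <;> rcases zmod2_cases b with rfl | rfl <;>
    simp [sg_zero, sg_one, h11]

lemma sg_mul_self (a : ZMod 2) : sg a * sg a = 1 := by
  rcases zmod2_cases a with rfl | rfl <;> simp [sg_zero, sg_one]

lemma sg_cases (a : ZMod 2) : sg a = 1 ∨ sg a = -1 := by
  rcases zmod2_cases a with rfl | rfl <;> simp [sg_zero, sg_one]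

section sums

variable {V : Type*} [AddCommGroup V] [Fintype V]

lemma sum_sg_hom (l : V → ZMod 2) (hl : ∀ x y, l (x + y) = l x + l y) (v₀ : V)
    (h0 : l v₀ ≠ 0) : ∑ v, sg (l v) = 0 := by
  have h1 : l v₀ = 1 := by
    rcases zmod2_cases (l v₀) with h | h
    · exact absurd h h0
    · exact h
  have h2 : ∑ v, sg (l v) = ∑ v, sg (l (v + v₀)) :=
    (Equiv.sum_comp (Equiv.addRight v₀) (fun v => sg (l v))).symm
  have h3 : ∑ v, sg (l (v + v₀)) = - ∑ v, sg (l v) := by
    rw [← Finset.sum_neg_distrib]
    refine Finset.sum_congr rfl fun v _ => ?_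
    rw [hl, sg_add, h1, sg_one]
    ring
  linarith

/-- a function with nondegenerate polar form has flat character sums -/
lemma sum_sg_sq (g : V → ZMod 2) (B : V → V → ZMod 2)
    (hB : ∀ x y z, B (x + y) z = B x z + B y z)
    (hpol : ∀ x z, g (x + z) = g x + g z + B x z) (hg0 : g 0 = 0)
    (hnd : ∀ z, z ≠ 0 → ∃ x, B x z ≠ 0) :
    (∑ x, sg (g x)) ^ 2 = Fintype.card V := by
  classical
  have hB0 : ∀ x, B x 0 = 0 := by
    intro x
    have := hpol x 0
    rw [add_zero, hg0, add_zero] at this
    have h2 : g x + 0 = g x + B x 0 := by rw [add_zero]; exact this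
    exact (add_left_cancel h2).symm
  calc (∑ x, sg (g x)) ^ 2 = ∑ x, ∑ y, sg (g x) * sg (g y) := by
        rw [sq, Finset.sum_mul_sum]
    _ = ∑ x, ∑ z, sg (g x) * sg (g (x + z)) := by
        refine Finset.sum_congr rfl fun x _ => ?_
        exact (Equiv.sum_comp (Equiv.addLeft x) (fun y => sg (g x) * sg (g y))).symm
    _ = ∑ z, ∑ x, sg (g x) * sg (g (x + z)) := Finset.sum_comm
    _ = ∑ z, sg (g z) * ∑ x, sg (B x z) := by
        refine Finset.sum_congr rfl fun z _ => ?_
        rw [Finset.mul_sum]
        refine Finset.sum_congr rfl fun x _ => ?_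
        rw [hpol, sg_add, sg_add]
        calc sg (g x) * (sg (g x) * sg (g z) * sg (B x z))
            = (sg (g x) * sg (g x)) * (sg (g z) * sg (B x z)) := by ring
          _ = _ := by rw [sg_mul_self, one_mul]
    _ = ∑ z : V, (if z = 0 then (Fintype.card V : ℝ) else 0) := by
        refine Finset.sum_congr rfl fun z _ => ?_
        by_cases hz : z = 0
        · subst hz
          rw [if_pos rfl, hg0, sg_zero, one_mul]
          simp [hB0, sg_zero]
        · rw [if_neg hz]
          obtain ⟨x, hx⟩ := hnd z hz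
          rw [sum_sg_hom (fun x => B x z) (fun a b => hB a b z) x hx, mul_zero]
    _ = Fintype.card V := by simp

end sums

/-- every alternating symmetric form over `F₂` is the polar form of a quadratic function -/
lemma exists_quadratic {F : Type*} [AddCommGroup F] [Module (ZMod 2) F]
    [Module.Finite (ZMod 2) F] (b : F →ₗ[ZMod 2] F →ₗ[ZMod 2] ZMod 2)
    (hsymm : ∀ x y, b x y = b y x) (halt : ∀ x, b x x = 0) :
    ∃ q : F → ZMod 2, ∀ x y, q (x + y) = q x + q y + b x y := by
  classical
  let e := Module.finBasis (ZMod 2) F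
  let c : Fin (Module.finrank (ZMod 2) F) → Fin (Module.finrank (ZMod 2) F) → ZMod 2 :=
    fun i j => if i < j then b (e i) (e j) else 0
  let q : F → ZMod 2 := fun x => ∑ i, ∑ j, c i j * e.repr x i * e.repr x j
  refine ⟨q, fun x y => ?_⟩
  have hb : b x y = ∑ i, ∑ j, b (e i) (e j) * e.repr x i * e.repr y j := by
    conv_lhs => rw [← e.sum_repr x, ← e.sum_repr y]
    simp only [map_sum, LinearMap.sum_apply, map_smul, LinearMap.smul_apply, smul_eq_mul,
      Finset.mul_sum]
    rw [Finset.sum_comm]
    refine Finset.sum_congr rfl fun i _ => Finset.sum_congr rfl fun j _ => ?_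
    ring
  have hb2 : b x y = ∑ i, ∑ j, c i j * (e.repr x i * e.repr y j + e.repr y i * e.repr x j) := by
    have hsplit : ∀ i j, b (e i) (e j) * e.repr x i * e.repr y j
        = c i j * (e.repr x i * e.repr y j) + c j i * (e.repr y j * e.repr x i) := by
      intro i j
      simp only [c]
      rcases lt_trichotomy i j with h | h | h
      · rw [if_pos h, if_neg (not_lt.mpr h.le)]
        ring
      · subst h
        simp [halt]
      · rw [if_neg (not_lt.mpr h.le), if_pos h, hsymm (e i) (e j)]
        ring
    rw [hb]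
    simp only [hsplit, Finset.sum_add_distrib, mul_add]
    congr 1
    rw [Finset.sum_comm]
  rw [hb2]
  simp only [q, ← Finset.sum_add_distrib, map_add, Finsupp.add_apply]
  refine Finset.sum_congr rfl fun i _ => Finset.sum_congr rfl fun j _ => ?_
  ring

section kerdock

variable {F : Type*} [Field F] [Fintype F] [Algebra (ZMod 2) F]

lemma trace_nondeg {a : F} (ha : a ≠ 0) : ∃ y, Algebra.trace (ZMod 2) F (a * y) ≠ 0 := by
  by_contra hcon
  push Not at hcon
  have hnd := traceForm_nondegenerate (ZMod 2) F
  apply ha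
  refine hnd.1 a ?_
  intro y
  rw [Algebra.traceForm_apply]
  exact hcon y

lemma trace_sq (x : F) : Algebra.trace (ZMod 2) F (x * x) = Algebra.trace (ZMod 2) F x := by
  have h := Algebra.trace_eq_of_algEquiv
    (FiniteField.frobeniusAlgEquivOfAlgebraic (ZMod 2) F) x
  rw [← h]
  congr 1
  simp [sq]

lemma trace_one (hodd : Odd (Module.finrank (ZMod 2) F)) : Algebra.trace (ZMod 2) F (1 : F) = 1 := by
  have h := Algebra.trace_algebraMap (S := F) (1 : ZMod 2)
  rw [map_one] at h
  rw [h, nsmul_eq_mul, mul_one]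
  obtain ⟨k, hk⟩ := hodd
  rw [hk]
  push_cast
  have h2 : (2 : ZMod 2) = 0 := rfl
  rw [h2]
  ring

/-- the alternating form `Tr (x y) + Tr x Tr y` -/
noncomputable def bform : F →ₗ[ZMod 2] F →ₗ[ZMod 2] ZMod 2 :=
  LinearMap.mk₂ (ZMod 2) (fun x y => Algebra.trace (ZMod 2) F (x * y) + Algebra.trace (ZMod 2) F x * Algebra.trace (ZMod 2) F y)
    (by intro a b c; simp only [add_mul, map_add]; ring)
    (by intro r a b; simp only [smul_mul_assoc, map_smul, smul_eq_mul]; ring)
    (by intro a b c; simp only [mul_add, map_add]; ring)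
    (by intro r a b; simp only [mul_smul_comm, map_smul, smul_eq_mul]; ring)

lemma bform_apply (x y : F) : bform x y = Algebra.trace (ZMod 2) F (x * y) + Algebra.trace (ZMod 2) F x * Algebra.trace (ZMod 2) F y := rfl

lemma exists_q : ∃ q : F → ZMod 2, ∀ x y, q (x + y) = q x + q y + (Algebra.trace (ZMod 2) F (x * y) + Algebra.trace (ZMod 2) F x * Algebra.trace (ZMod 2) F y) := by
  refine exists_quadratic (bform (F := F)) ?_ ?_
  · intro x y
    rw [bform_apply, bform_apply, mul_comm x y, mul_comm (Algebra.trace (ZMod 2) F x)]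
  · intro x
    rw [bform_apply, trace_sq, zmod2_mul_self, zmod2_add_self]

/-- polar form of the `s`-th Kerdock form -/
noncomputable def KB (s : F) (v w : F × ZMod 2) : ZMod 2 :=
  Algebra.trace (ZMod 2) F (s * v.1 * (s * w.1)) + Algebra.trace (ZMod 2) F (s * v.1) * Algebra.trace (ZMod 2) F (s * w.1) + v.2 * Algebra.trace (ZMod 2) F (s * w.1) + w.2 * Algebra.trace (ZMod 2) F (s * v.1)

lemma KB_add (s : F) (x y z : F × ZMod 2) : KB s (x + y) z = KB s x z + KB s y z := by
  simp only [KB, Prod.fst_add, Prod.snd_add, mul_add, add_mul, map_add]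
  ring

/-- **Kerdock**: the difference of two polar forms is nondegenerate -/
lemma KB_nondeg (hodd : Odd (Module.finrank (ZMod 2) F)) {s u : F} (hsu : s ≠ u)
    (z : F × ZMod 2) (hz : z ≠ 0) : ∃ v, KB s v z + KB u v z ≠ 0 := by
  by_contra hcon
  push Not at hcon
  apply hz
  obtain ⟨x, e⟩ := z
  have hT1 := trace_one (F := F) hodd
  -- `Algebra.trace (ZMod 2) F (s x) = Algebra.trace (ZMod 2) F (u x)`
  have h1 : Algebra.trace (ZMod 2) F (s * x) + Algebra.trace (ZMod 2) F (u * x) = 0 := by
    have := hcon (0, 1)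
    simpa [KB] using this
  have h1' : Algebra.trace (ZMod 2) F (s * x) = Algebra.trace (ZMod 2) F (u * x) := by
    have h := congrArg (· + Algebra.trace (ZMod 2) F (u * x)) h1
    simp only [zero_add] at h
    rw [add_assoc, zmod2_add_self, add_zero] at h
    exact h
  set τ := Algebra.trace (ZMod 2) F (s * x) with hτ
  -- coefficient of `y`
  have h2 : (s * s + u * u) * x + (τ + e) • (s + u) = 0 := by
    by_contra hne
    obtain ⟨y, hy⟩ := trace_nondeg hne
    apply hy
    have := hcon (y, 0)
    simp only [KB, zero_mul, add_zero] at this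
    rw [← h1'] at this
    rw [add_mul, map_add, ← this]
    simp only [add_mul, smul_mul_assoc, map_add, map_smul, smul_eq_mul]
    have e1 : s * y * (s * x) = s * s * x * y := by ring
    have e2 : u * y * (u * x) = u * u * x * y := by ring
    rw [e1, e2]
    ring
  have : CharP F 2 := charP_of_injective_algebraMap (algebraMap (ZMod 2) F).injective 2
  have h3 : (s + u) * ((s + u) * x + algebraMap (ZMod 2) F (τ + e)) = 0 := by
    rw [Algebra.smul_def] at h2
    have h22 : (s + u) * (s + u) = s * s + u * u := by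
      have : s * u + s * u = 0 := CharTwo.add_self_eq_zero _
      calc (s + u) * (s + u) = s * s + u * u + (s * u + s * u) := by ring
        _ = _ := by rw [this, add_zero]
    calc (s + u) * ((s + u) * x + algebraMap (ZMod 2) F (τ + e))
        = ((s + u) * (s + u)) * x + algebraMap (ZMod 2) F (τ + e) * (s + u) := by ring
      _ = 0 := by rw [h22]; exact h2
  have hsu' : s + u ≠ 0 := by
    intro h
    apply hsu
    have h' := congrArg (· + u) h
    simp only [zero_add] at h'
    rw [add_assoc, CharTwo.add_self_eq_zero, add_zero] at h'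
    exact h'
  have h4 : (s + u) * x + algebraMap (ZMod 2) F (τ + e) = 0 := by
    rcases mul_eq_zero.mp h3 with h | h
    · exact absurd h hsu'
    · exact h
  have h5 : τ + e = 0 := by
    have h := congrArg (fun y => Algebra.trace (ZMod 2) F y) h4
    simp only [map_add, map_zero] at h
    have h' : Algebra.trace (ZMod 2) F (algebraMap (ZMod 2) F τ) + Algebra.trace (ZMod 2) F (algebraMap (ZMod 2) F e) = 0 := by
      rw [add_mul, map_add, ← hτ, h1, zero_add] at h
      exact h
    rw [Algebra.algebraMap_eq_smul_one, Algebra.algebraMap_eq_smul_one, map_smul, map_smul,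
      hT1, smul_eq_mul, smul_eq_mul, mul_one, mul_one] at h'
    exact h'
  have h6 : x = 0 := by
    rw [h5, map_zero, add_zero] at h4
    rcases mul_eq_zero.mp h4 with h | h
    · exact absurd h hsu'
    · exact h
  have h7 : e = 0 := by
    have : τ = 0 := by rw [hτ, h6, mul_zero, map_zero]
    rw [this, zero_add] at h5
    exact h5
  rw [h6, h7]
  rfl

end kerdock

end Pool.Agent.helper70.Sachs
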