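import Pool.Agent.helper70.SA.Defs

/-!
# From a system of vectors with inner products `β` or `≤ -β` to a packing

`helper70`, problem MP_facb47_co.
-/

namespace Pool.Agent.helper70.Sachs

open Finset

/-- inner product of two real functions on a finite set -/
noncomputable def ip {J : Type*} [Fintype J] (u v : J → ℝ) : ℝ := ∑ j, u j * v j

/-- Gram bound: vectors with pairwise inner products `≤ -β` -/
lemma gram_bound {X J : Type*} [Fintype J] (u : X → J → ℝ) {ν β : ℝ}
    (hν : ∀ x, ip (u x) (u x) = ν) (S : Finset X)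
    (hS : ∀ x ∈ S, ∀ y ∈ S, x ≠ y → ip (u x) (u y) ≤ -β) (hβν : 0 ≤ ν + β) :
    (S.card : ℝ) * β ≤ ν + β := by
  classical
  rcases Nat.eq_zero_or_pos S.card with h0 | hpos
  · rw [h0]
    simpa using hβν
  have h1 : 0 ≤ ∑ j, (∑ x ∈ S, u x j) ^ 2 := Finset.sum_nonneg fun j _ => sq_nonneg _
  have h2 : ∑ j, (∑ x ∈ S, u x j) ^ 2 = ∑ x ∈ S, ∑ y ∈ S, ip (u x) (u y) := by
    simp only [ip, sq, Finset.sum_mul_sum]
    rw [Finset.sum_comm]
    refine Finset.sum_congr rfl fun x _ => ?_
    rw [Finset.sum_comm]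
  have h3 : ∑ x ∈ S, ∑ y ∈ S, ip (u x) (u y) ≤ ∑ x ∈ S, ((ν + β) - S.card * β) := by
    refine Finset.sum_le_sum fun x hx => ?_
    have h4 : ∑ y ∈ S, ip (u x) (u y) ≤ ∑ y ∈ S, ((if y = x then ν + β else 0) - β) := by
      refine Finset.sum_le_sum fun y hy => ?_
      by_cases hxy : y = x
      · subst hxy
        rw [if_pos rfl, hν]
        linarith
      · rw [if_neg hxy]
        have := hS x hx y hy (fun h => hxy h.symm)
        linarith
    refine h4.trans (le_of_eq ?_)
    rw [Finset.sum_sub_distrib, Finset.sum_ite_eq' S x, if_pos hx, Finset.sum_const, nsmul_eq_mul]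
  rw [Finset.sum_const, nsmul_eq_mul] at h3
  have h5 : 0 ≤ (S.card : ℝ) * ((ν + β) - S.card * β) := by linarith
  have h6 : (0 : ℝ) < S.card := by exact_mod_cast hpos
  have h7 : 0 ≤ (ν + β) - S.card * β := nonneg_of_mul_nonneg_right h5 h6
  linarith

/-- the point of `ℝⁿ` with coordinates `r * u j` at the places `ι j` -/
noncomputable def pt {n : ℕ} {J : Type*} (ι : J → Fin n) (r : ℝ) (u : J → ℝ) :
    EuclideanSpace ℝ (Fin n) :=
  WithLp.toLp 2 (fun i => r * Function.extend ι u 0 i)

lemma dist_pt {n : ℕ} {J : Type*} [Fintype J] {ι : J → Fin n} (hι : Function.Injective ι)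
    (r : ℝ) (u v : J → ℝ) :
    dist (pt ι r u) (pt ι r v) ^ 2 = r ^ 2 * (ip u u + ip v v - 2 * ip u v) := by
  rw [EuclideanSpace.dist_eq, Real.sq_sqrt (Finset.sum_nonneg fun i _ => sq_nonneg _)]
  have h : ∑ j, (r * u j - r * v j) ^ 2
      = ∑ i : Fin n, dist ((pt ι r u).ofLp i) ((pt ι r v).ofLp i) ^ 2 := by
    refine Fintype.sum_of_injective ι hι _ _ ?_ ?_
    · intro i hi
      simp only [pt, Real.dist_eq, sq_abs]
      rw [Function.extend_apply' _ _ _ (fun ⟨j, hj⟩ => hi ⟨j, hj⟩),
        Function.extend_apply' _ _ _ (fun ⟨j, hj⟩ => hi ⟨j, hj⟩)]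
      simp
    · intro j
      simp only [pt, Real.dist_eq, sq_abs, hι.extend_apply]
  rw [← h]
  simp only [ip]
  rw [← Finset.sum_add_distrib, Finset.mul_sum, ← Finset.sum_sub_distrib, Finset.mul_sum]
  refine Finset.sum_congr rfl fun j _ => ?_
  ring

/-- a system of vectors of norm `ν` all of whose inner products are `β` or `≤ -β` gives a
packing of unit spheres whose touching graph needs many colours -/
theorem packing_of_vectors {X J : Type*} [Fintype X] [Fintype J] {n : ℕ}
    (hn : Fintype.card J ≤ n) (u : X → J → ℝ) {ν β : ℝ} (hβ : 0 < β) (hβν : β < ν)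
    (hν : ∀ x, ip (u x) (u x) = ν)
    (hip : ∀ x y, x ≠ y → ip (u x) (u y) = β ∨ ip (u x) (u y) ≤ -β) {c : ℕ}
    (hc : chi n ≤ c) : (Fintype.card X : ℝ) * β ≤ (ν + β) * c := by
  classical
  obtain ⟨ι⟩ : Nonempty (J ↪ Fin n) :=
    Function.Embedding.nonempty_of_card_le (by simpa using hn)
  set r : ℝ := Real.sqrt (2 / (ν - β)) with hr
  have hpos : 0 < ν - β := by linarith
  have hr2 : r ^ 2 = 2 / (ν - β) := Real.sq_sqrt (by positivity)
  have hdist : ∀ x y, dist (pt ι r (u x)) (pt ι r (u y)) ^ 2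
      = 2 / (ν - β) * (2 * ν - 2 * ip (u x) (u y)) := by
    intro x y
    rw [dist_pt ι.injective, hr2, hν, hν]
    ring
  have hd1 : ∀ x y, x ≠ y → ip (u x) (u y) = β → dist (pt ι r (u x)) (pt ι r (u y)) = 2 := by
    intro x y _ h
    have h1 := hdist x y
    rw [h] at h1
    have h2 : 2 / (ν - β) * (2 * ν - 2 * β) = 2 ^ 2 := by
      rw [div_mul_eq_mul_div, div_eq_iff hpos.ne']
      ring
    rw [h2] at h1
    exact (sq_eq_sq₀ dist_nonneg (by norm_num)).mp h1
  have hd2 : ∀ x y, x ≠ y → ip (u x) (u y) ≤ -β → 2 < dist (pt ι r (u x)) (pt ι r (u y)) := by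
    intro x y _ h
    have h1 := hdist x y
    have h2 : (2 : ℝ) ^ 2 < dist (pt ι r (u x)) (pt ι r (u y)) ^ 2 := by
      rw [h1]
      have h3 : 2 / (ν - β) * (2 * ν - 2 * β) = 2 ^ 2 := by
        rw [div_mul_eq_mul_div, div_eq_iff hpos.ne']
        ring
      rw [← h3]
      apply mul_lt_mul_of_pos_left _ (by positivity)
      linarith
    exact lt_of_pow_lt_pow_left₀ 2 dist_nonneg h2
  let M : Set (EuclideanSpace ℝ (Fin n)) := Set.range fun x => pt ι r (u x)
  have hM : IsPacking M := by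
    rintro _ ⟨x, rfl⟩ _ ⟨y, rfl⟩ hxy
    have hne : x ≠ y := fun h => hxy (by rw [h])
    rcases hip x y hne with h | h
    · exact (hd1 x y hne h).ge
    · exact (hd2 x y hne h).le
  have hcol : (touchingGraph M).Colorable c := by
    rw [← SimpleGraph.chromaticNumber_le_iff_colorable]
    exact (le_iSup (fun M : {M : Set (EuclideanSpace ℝ (Fin n)) // IsPacking M} =>
      (touchingGraph M.1).chromaticNumber) ⟨M, hM⟩).trans hc
  obtain ⟨C⟩ := hcol
  let f : X → Fin c := fun x => C ⟨pt ι r (u x), x, rfl⟩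
  have hf : ∀ a : Fin c, ((univ.filter fun x => f x = a).card : ℝ) * β ≤ ν + β := by
    intro a
    refine gram_bound u hν _ ?_ (by linarith)
    intro x hx y hy hxy
    rw [mem_filter] at hx hy
    rcases hip x y hxy with h | h
    · exfalso
      have hadj : (touchingGraph M).Adj ⟨pt ι r (u x), x, rfl⟩ ⟨pt ι r (u y), y, rfl⟩ :=
        hd1 x y hxy h
      exact C.valid hadj (hx.2.trans hy.2.symm)
    · exact h
  have hsum : (Fintype.card X : ℝ) = ∑ a : Fin c, ((univ.filter fun x => f x = a).card : ℝ) := by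
    have h1 := Finset.card_eq_sum_card_fiberwise (s := (univ : Finset X))
      (t := (univ : Finset (Fin c))) (f := f) (fun x _ => mem_univ _)
    rw [card_univ] at h1
    rw [h1]
    push_cast
    rfl
  rw [hsum, Finset.sum_mul]
  calc ∑ a : Fin c, ((univ.filter fun x => f x = a).card : ℝ) * β
      ≤ ∑ _a : Fin c, (ν + β) := Finset.sum_le_sum fun a _ => hf a
    _ = (ν + β) * c := by
        rw [Finset.sum_const, card_univ, Fintype.card_fin, nsmul_eq_mul, mul_comm]

/-- `n` unit spheres touching pairwise -/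
theorem le_of_chi_le {n c : ℕ} (hc : chi n ≤ c) : n ≤ c := by
  classical
  let u : Fin n → Fin n → ℝ := fun x j => if j = x then 1 else 0
  have hip : ∀ x y, ip (u x) (u y) = if x = y then 1 else 0 := by
    intro x y
    simp only [ip, u]
    by_cases h : x = y
    · subst h
      simp
    · rw [if_neg h]
      refine Finset.sum_eq_zero fun j _ => ?_
      by_cases hj : j = x
      · subst hj
        simp [h]
      · simp [hj]
  set r : ℝ := Real.sqrt 2 with hr
  have hdist : ∀ x y, x ≠ y → dist (pt id r (u x)) (pt id r (u y)) = 2 := by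
    intro x y hxy
    have h1 := dist_pt (ι := (id : Fin n → Fin n)) Function.injective_id r (u x) (u y)
    rw [hip, hip, hip, if_pos rfl, if_pos rfl, if_neg hxy, hr, Real.sq_sqrt (by norm_num)] at h1
    have h2 : dist (pt id r (u x)) (pt id r (u y)) ^ 2 = 2 ^ 2 := by
      rw [hr, h1]
      norm_num
    exact (sq_eq_sq₀ dist_nonneg (by norm_num)).mp h2
  let M : Set (EuclideanSpace ℝ (Fin n)) := Set.range fun x => pt id r (u x)
  have hM : IsPacking M := by
    rintro _ ⟨x, rfl⟩ _ ⟨y, rfl⟩ hxy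
    exact (hdist x y (fun h => hxy (by rw [h]))).ge
  have hcol : (touchingGraph M).Colorable c := by
    rw [← SimpleGraph.chromaticNumber_le_iff_colorable]
    exact (le_iSup (fun M : {M : Set (EuclideanSpace ℝ (Fin n)) // IsPacking M} =>
      (touchingGraph M.1).chromaticNumber) ⟨M, hM⟩).trans hc
  obtain ⟨C⟩ := hcol
  let f : Fin n → Fin c := fun x => C ⟨pt id r (u x), x, rfl⟩
  have hf : Function.Injective f := by
    intro x y hxy
    by_contra hne
    have hadj : (touchingGraph M).Adj ⟨pt id r (u x), x, rfl⟩ ⟨pt id r (u y), y, rfl⟩ :=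
      hdist x y hne
    exact C.valid hadj hxy
  simpa using Fintype.card_le_of_injective f hf

end Pool.Agent.helper70.Sachs
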