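import Pool.Agent.helper70.SA.Kerdock
import Pool.Agent.helper70.SA.Pack

/-!
# The lower bound `χ_n ≥ n^{3/2} / 11`

`helper70`, problem MP_facb47_co.
-/

namespace Pool.Agent.helper70.Sachs

open Finset

section vectors

variable {F : Type*} [Field F] [Fintype F] [Algebra (ZMod 2) F]

/-- linear functionals on `F × F₂` -/
noncomputable def lin (w v : F × ZMod 2) : ZMod 2 := Algebra.trace (ZMod 2) F (w.1 * v.1) + w.2 * v.2

omit [Fintype F] in
lemma lin_add_left (w w' v : F × ZMod 2) : lin (w + w') v = lin w v + lin w' v := by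
  simp only [lin, Prod.fst_add, Prod.snd_add, add_mul, map_add]
  ring

omit [Fintype F] in
lemma lin_add_right (w v v' : F × ZMod 2) : lin w (v + v') = lin w v + lin w v' := by
  simp only [lin, Prod.fst_add, Prod.snd_add, mul_add, map_add]
  ring

lemma lin_nondeg {w : F × ZMod 2} (hw : w ≠ 0) : ∃ v, lin w v ≠ 0 := by
  by_cases h : w.1 = 0
  · refine ⟨(0, 1), ?_⟩
    have h2 : w.2 ≠ 0 := fun h2 => hw (Prod.ext h h2)
    simpa [lin] using h2
  · obtain ⟨y, hy⟩ := trace_nondeg h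
    refine ⟨(y, 0), ?_⟩
    simpa [lin] using hy

/-- the exponent of the sign in the coordinates of the vectors -/
noncomputable def phase (q : F → ZMod 2) (s : F) (w : F × ZMod 2) (ε : ZMod 2)
    (v : F × ZMod 2) : ZMod 2 :=
  q (s * v.1) + v.2 * Algebra.trace (ZMod 2) F (s * v.1) + lin w v + ε

/-- the vectors of the system -/
noncomputable def vec {k : ℕ} (q : F → ZMod 2) (σ : Fin k → F) (h : ℝ)
    (x : Fin k × (F × ZMod 2) × ZMod 2) : (F × ZMod 2) ⊕ Fin k → ℝ :=
  Sum.elim (fun v => sg (phase q (σ x.1) x.2.1 x.2.2 v))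
    (fun j => if j = x.1 then sg x.2.2 * h else 0)

omit [Fintype F] in
lemma add_self_V (z : F × ZMod 2) : z + z = 0 := by
  have : CharP F 2 := charP_of_injective_algebraMap (algebraMap (ZMod 2) F).injective 2
  exact Prod.ext (CharTwo.add_self_eq_zero _) (zmod2_add_self _)

lemma ip_vec {k : ℕ} (q : F → ZMod 2) (σ : Fin k → F) (h : ℝ)
    (x y : Fin k × (F × ZMod 2) × ZMod 2) :
    ip (vec q σ h x) (vec q σ h y) =
      sg (x.2.2 + y.2.2) * (∑ v : F × ZMod 2, sg (q (σ x.1 * v.1) + v.2 * Algebra.trace (ZMod 2) F (σ x.1 * v.1)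
        + (q (σ y.1 * v.1) + v.2 * Algebra.trace (ZMod 2) F (σ y.1 * v.1)) + lin (x.2.1 + y.2.1) v)
        + if x.1 = y.1 then h * h else 0) := by
  classical
  rw [ip, Fintype.sum_sum_type, mul_add, Finset.mul_sum]
  congr 1
  · refine Finset.sum_congr rfl fun v _ => ?_
    simp only [vec, Sum.elim_inl, phase]
    rw [← sg_add, ← sg_add, lin_add_left]
    congr 1
    ring
  · simp only [vec, Sum.elim_inr]
    by_cases hxy : x.1 = y.1
    · rw [if_pos hxy, Finset.sum_eq_single x.1]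
      · rw [if_pos rfl, if_pos hxy, sg_add]
        ring
      · intro j _ hj
        rw [if_neg hj, zero_mul]
      · intro hh
        exact absurd (mem_univ _) hh
    · rw [if_neg hxy, mul_zero]
      refine Finset.sum_eq_zero fun j _ => ?_
      by_cases hj : j = x.1
      · rw [if_neg (fun h' => hxy (hj.symm.trans h')), mul_zero]
      · rw [if_neg hj, zero_mul]

lemma ip_cases {q : F → ZMod 2}
    (hq : ∀ x y, q (x + y) = q x + q y + (Algebra.trace (ZMod 2) F (x * y) + Algebra.trace (ZMod 2) F x * Algebra.trace (ZMod 2) F y)) {k t : ℕ} (hodd : Odd (Module.finrank (ZMod 2) F))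
    (hcard : Fintype.card (F × ZMod 2) = 4 ^ t) {σ : Fin k → F} (hσ : Function.Injective σ)
    {h : ℝ} (hh : h * h = 2 ^ t) (x y : Fin k × (F × ZMod 2) × ZMod 2) (hxy : x ≠ y) :
    ip (vec q σ h x) (vec q σ h y) = 2 ^ t ∨ ip (vec q σ h x) (vec q σ h y) ≤ -2 ^ t := by
  classical
  have h2t : (0 : ℝ) < 2 ^ t := by positivity
  have h4t : (0 : ℝ) < 4 ^ t := by positivity
  rw [ip_vec]
  by_cases h1 : x.1 = y.1
  · rw [if_pos h1, hh]
    have hs : ∑ v : F × ZMod 2, sg (q (σ x.1 * v.1) + v.2 * Algebra.trace (ZMod 2) F (σ x.1 * v.1)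
        + (q (σ y.1 * v.1) + v.2 * Algebra.trace (ZMod 2) F (σ y.1 * v.1)) + lin (x.2.1 + y.2.1) v)
        = ∑ v : F × ZMod 2, sg (lin (x.2.1 + y.2.1) v) := by
      refine Finset.sum_congr rfl fun v _ => ?_
      rw [h1, zmod2_add_self, zero_add]
    rw [hs]
    by_cases h2 : x.2.1 = y.2.1
    · have h3 : x.2.2 ≠ y.2.2 := by
        intro h3
        exact hxy (Prod.ext h1 (Prod.ext h2 h3))
      have h4 : x.2.2 + y.2.2 = 1 := by
        rcases zmod2_cases (x.2.2 + y.2.2) with h5 | h5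
        · exfalso
          apply h3
          have h6 := congrArg (· + y.2.2) h5
          simp only [zero_add] at h6
          rw [add_assoc, zmod2_add_self, add_zero] at h6
          exact h6
        · exact h5
      right
      have h5 : x.2.1 + y.2.1 = 0 := by
        rw [h2]
        exact add_self_V _
      rw [h4, h5, sg_one]
      have h6 : ∑ v : F × ZMod 2, sg (lin (0 : F × ZMod 2) v) = 4 ^ t := by
        have : ∀ v : F × ZMod 2, sg (lin (0 : F × ZMod 2) v) = 1 := by
          intro v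
          simp [lin, sg_zero]
        simp only [this, Finset.sum_const, card_univ, hcard, nsmul_eq_mul, mul_one]
        push_cast
        rfl
      rw [h6]
      linarith
    · have h5 : x.2.1 + y.2.1 ≠ 0 := by
        intro h5
        apply h2
        have h6 := congrArg (· + y.2.1) h5
        simp only [zero_add] at h6
        rw [add_assoc, add_self_V, add_zero] at h6
        exact h6
      obtain ⟨v₀, hv₀⟩ := lin_nondeg h5
      rw [sum_sg_hom (fun v => lin (x.2.1 + y.2.1) v) (fun a b => lin_add_right _ a b) v₀ hv₀,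
        zero_add]
      rcases sg_cases (x.2.2 + y.2.2) with h7 | h7
      · left
        rw [h7, one_mul]
      · right
        rw [h7]
        linarith
  · rw [if_neg h1, add_zero]
    have hq0 : q 0 = 0 := by
      have := hq 0 0
      simp only [add_zero, mul_zero, map_zero] at this
      have h2 : q 0 + 0 = q 0 + q 0 := by rw [add_zero]; exact this
      exact (add_left_cancel h2).symm
    have hsq := sum_sg_sq (V := F × ZMod 2)
      (fun v => q (σ x.1 * v.1) + v.2 * Algebra.trace (ZMod 2) F (σ x.1 * v.1)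
        + (q (σ y.1 * v.1) + v.2 * Algebra.trace (ZMod 2) F (σ y.1 * v.1)) + lin (x.2.1 + y.2.1) v)
      (fun v z => KB (σ x.1) v z + KB (σ y.1) v z)
      (fun a b c => by rw [KB_add, KB_add]; ring)
      (fun a b => by
        simp only [Prod.fst_add, Prod.snd_add, mul_add, hq, lin_add_right, KB, map_add]
        ring)
      (by simp [hq0, lin])
      (fun z hz => KB_nondeg hodd (fun h' => h1 (hσ h')) z hz)
    rw [hcard] at hsq
    have hsq' : (∑ v : F × ZMod 2, sg (q (σ x.1 * v.1) + v.2 * Algebra.trace (ZMod 2) F (σ x.1 * v.1)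
        + (q (σ y.1 * v.1) + v.2 * Algebra.trace (ZMod 2) F (σ y.1 * v.1)) + lin (x.2.1 + y.2.1) v)) ^ 2
        = ((2 : ℝ) ^ t) ^ 2 := by
      rw [hsq]
      push_cast
      rw [← pow_mul, mul_comm t 2, pow_mul]
      norm_num
    rcases sq_eq_sq_iff_eq_or_eq_neg.mp hsq' with h2 | h2 <;>
      rcases sg_cases (x.2.2 + y.2.2) with h7 | h7 <;> rw [h2, h7]
    · left; ring
    · right; linarith
    · right; linarith
    · left; ring

lemma ip_self {k t : ℕ} (q : F → ZMod 2) (hcard : Fintype.card (F × ZMod 2) = 4 ^ t)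
    (σ : Fin k → F) {h : ℝ} (hh : h * h = 2 ^ t) (x : Fin k × (F × ZMod 2) × ZMod 2) :
    ip (vec q σ h x) (vec q σ h x) = 4 ^ t + 2 ^ t := by
  classical
  rw [ip_vec, if_pos rfl, hh, zmod2_add_self, sg_zero, one_mul]
  congr 1
  have : ∀ v : F × ZMod 2, sg (q (σ x.1 * v.1) + v.2 * Algebra.trace (ZMod 2) F (σ x.1 * v.1)
        + (q (σ x.1 * v.1) + v.2 * Algebra.trace (ZMod 2) F (σ x.1 * v.1)) + lin (x.2.1 + x.2.1) v) = 1 := by
    intro v
    rw [zmod2_add_self, add_self_V]
    simp [lin, sg_zero]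
  simp only [this, Finset.sum_const, card_univ, hcard, nsmul_eq_mul, mul_one]
  push_cast
  rfl

end vectors

/-- **the main inequality** -/
theorem main_bound {t k n c : ℕ} (ht : 1 ≤ t) (hk : k ≤ 2 ^ (2 * t - 1))
    (hn : 4 ^ t + k ≤ n) (hc : chi n ≤ c) : 2 ^ (2 * t + 1) * k ≤ (2 ^ t + 2) * c := by
  classical
  let F := GaloisField 2 (2 * t - 1)
  have hm : 2 * t - 1 ≠ 0 := by omega
  let _ : Fintype F := Fintype.ofFinite F
  have hfr : Module.finrank (ZMod 2) F = 2 * t - 1 := GaloisField.finrank 2 hm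
  have hodd : Odd (Module.finrank (ZMod 2) F) := by
    rw [hfr]
    exact ⟨t - 1, by omega⟩
  have hcF : Fintype.card F = 2 ^ (2 * t - 1) := by
    rw [← Nat.card_eq_fintype_card]
    exact GaloisField.card 2 _ hm
  have hcard : Fintype.card (F × ZMod 2) = 4 ^ t := by
    rw [Fintype.card_prod, hcF, ZMod.card, ← pow_succ,
      show 2 * t - 1 + 1 = 2 * t by omega, pow_mul]
    norm_num
  obtain ⟨σ⟩ : Nonempty (Fin k ↪ F) :=
    Function.Embedding.nonempty_of_card_le (by rw [Fintype.card_fin, hcF]; exact hk)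
  obtain ⟨q, hq⟩ := exists_q (F := F)
  set h : ℝ := Real.sqrt (2 ^ t) with hh
  have hh2 : h * h = 2 ^ t := Real.mul_self_sqrt (by positivity)
  have h2t : (0 : ℝ) < 2 ^ t := by positivity
  have h4t : (0 : ℝ) < 4 ^ t := by positivity
  have key := packing_of_vectors (n := n) (c := c)
    (X := Fin k × (F × ZMod 2) × ZMod 2) (J := (F × ZMod 2) ⊕ Fin k)
    (by rw [Fintype.card_sum, hcard, Fintype.card_fin]; exact hn)
    (vec q σ h) (ν := 4 ^ t + 2 ^ t) (β := 2 ^ t) h2t (by linarith)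
    (ip_self q hcard σ hh2) (ip_cases hq hodd hcard σ.injective hh2) hc
  have hcX : Fintype.card (Fin k × (F × ZMod 2) × ZMod 2) = k * (4 ^ t * 2) := by
    rw [Fintype.card_prod, Fintype.card_prod, hcard, Fintype.card_fin, ZMod.card]
  rw [hcX] at key
  have h4 : (4 : ℝ) ^ t = 2 ^ t * 2 ^ t := by
    rw [← mul_pow]
    norm_num
  have key2 : (2 : ℝ) ^ t * ((2 : ℝ) ^ (2 * t + 1) * k) ≤ 2 ^ t * ((2 ^ t + 2) * c) := by
    push_cast at key
    rw [h4] at key
    calc (2 : ℝ) ^ t * ((2 : ℝ) ^ (2 * t + 1) * k)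
        = k * (2 ^ t * 2 ^ t * 2) * 2 ^ t := by ring
      _ ≤ (2 ^ t * 2 ^ t + 2 ^ t + 2 ^ t) * c := key
      _ = 2 ^ t * ((2 ^ t + 2) * c) := by ring
  have key3 := le_of_mul_le_mul_left key2 h2t
  exact_mod_cast key3

/-- the lower bound for every dimension -/
theorem lower_bound {n c : ℕ} (hc : chi n ≤ c) : n ^ 3 ≤ 121 * c ^ 2 := by
  have hclique := le_of_chi_le hc
  rcases Nat.lt_or_ge 121 n with hbig | hsmall
  swap
  · calc n ^ 3 = n * n ^ 2 := by ring
      _ ≤ 121 * c ^ 2 := Nat.mul_le_mul hsmall (Nat.pow_le_pow_left hclique 2)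
  rcases Nat.lt_or_ge n 272 with h272 | h272
  · have h := main_bound (t := 3) (k := 32) (n := n) (c := c) (by norm_num) (by norm_num)
      (by norm_num; omega) hc
    norm_num at h
    have hc410 : 410 ≤ c := by omega
    calc n ^ 3 ≤ 271 ^ 3 := Nat.pow_le_pow_left (by omega) 3
      _ ≤ 121 * 410 ^ 2 := by norm_num
      _ ≤ 121 * c ^ 2 := Nat.mul_le_mul_left _ (Nat.pow_le_pow_left hc410 2)
  -- choose `t ≥ 4` with `17 * 4 ^ (t - 2) ≤ n < 17 * 4 ^ (t - 1)`
  obtain ⟨t, ht4, ht1, ht2⟩ : ∃ t, 4 ≤ t ∧ 17 * 4 ^ (t - 2) ≤ n ∧ n < 17 * 4 ^ (t - 1) := by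
    have hex : ∃ s, n < 17 * 4 ^ s := ⟨n, by
      have : n < 4 ^ n := Nat.lt_pow_self (by norm_num)
      omega⟩
    have hmin := Nat.find_spec hex
    set s := Nat.find hex with hs
    have hs3 : 3 ≤ s := by
      by_contra hlt
      push Not at hlt
      have : 17 * 4 ^ s ≤ 17 * 4 ^ 2 :=
        Nat.mul_le_mul_left _ (Nat.pow_le_pow_right (by norm_num) (by omega))
      omega
    have hpred : ¬ n < 17 * 4 ^ (s - 1) := Nat.find_min hex (by omega)
    refine ⟨s + 1, by omega, ?_, ?_⟩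
    · have : s + 1 - 2 = s - 1 := by omega
      rw [this]
      omega
    · simpa using hmin
  obtain ⟨u, hu⟩ : ∃ u, u = 2 ^ t := ⟨_, rfl⟩
  have hu16 : 16 ≤ u := by
    rw [hu]
    calc 16 = 2 ^ 4 := by norm_num
      _ ≤ 2 ^ t := Nat.pow_le_pow_right (by norm_num) ht4
  have hu2 : 4 ^ t = u * u := by
    rw [hu, ← mul_pow]
    norm_num
  have hlow : 17 * (u * u) ≤ 16 * n := by
    rw [← hu2]
    have : 4 ^ t = 16 * 4 ^ (t - 2) := by
      rw [show t = (t - 2) + 2 by omega, pow_add]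
      simp
      ring
    rw [this]
    omega
  have hup : 4 * n < 17 * (u * u) := by
    rw [← hu2]
    have : 4 ^ t = 4 * 4 ^ (t - 1) := by
      rw [show t = (t - 1) + 1 by omega, pow_add]
      simp
      ring
    rw [this]
    omega
  have heven : 2 ^ (2 * t - 1) * 2 = u * u := by
    rw [← hu2, ← pow_succ, show 2 * t - 1 + 1 = 2 * t by omega, pow_mul]
    norm_num
  have hodd' : 2 ^ (2 * t + 1) = 2 * (u * u) := by
    rw [← hu2, pow_succ, pow_mul]
    ring
  rcases Nat.le_total (2 * n) (3 * (u * u)) with hA | hB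
  · -- `n = u² + k`, `u² / 16 ≤ k ≤ u² / 2`
    obtain ⟨k, hk⟩ : ∃ k, n = u * u + k := ⟨n - u * u, by omega⟩
    have h := main_bound (t := t) (k := k) (n := n) (c := c) (by omega) (by omega)
      (by rw [hu2, hk]) hc
    rw [hodd', ← hu] at h
    -- `16 u k ≤ 9 c`
    have h1 : 16 * (u * k) ≤ 9 * c := by
      have h2 : 8 * (u + 2) ≤ 9 * u := by omega
      have h3 : u * (16 * (u * k)) ≤ u * (9 * c) := by
        calc u * (16 * (u * k)) = 8 * (2 * (u * u) * k) := by ring
          _ ≤ 8 * ((u + 2) * c) := Nat.mul_le_mul_left _ h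
          _ = (8 * (u + 2)) * c := by ring
          _ ≤ (9 * u) * c := Nat.mul_le_mul_right _ h2
          _ = u * (9 * c) := by ring
      exact Nat.le_of_mul_le_mul_left h3 (by omega)
    have hk1 : u * u ≤ 16 * k := by omega
    have hk2 : 2 * k ≤ u * u := by omega
    have h4 : 256 * ((u * u) * (k * k)) ≤ 81 * c ^ 2 := by
      calc 256 * ((u * u) * (k * k)) = (16 * (u * k)) ^ 2 := by ring
        _ ≤ (9 * c) ^ 2 := Nat.pow_le_pow_left h1 2
        _ = 81 * c ^ 2 := by ring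
    rw [hk]
    obtain ⟨a, ha⟩ : ∃ a, a = u * u := ⟨_, rfl⟩
    rw [← ha] at hk1 hk2 h4 ⊢
    have h5 : (a + k) ^ 3 ≤ 382 * (a * (k * k)) := by
      zify at hk1 hk2 ⊢
      have ha0 : (0 : ℤ) ≤ a := by positivity
      have hk0 : (0 : ℤ) ≤ k := by positivity
      nlinarith [mul_nonneg ha0 hk0, mul_nonneg (sub_nonneg.mpr hk1) (sub_nonneg.mpr hk2),
        mul_nonneg ha0 (mul_nonneg (sub_nonneg.mpr hk1) (sub_nonneg.mpr hk2)),
        mul_nonneg hk0 (mul_nonneg (sub_nonneg.mpr hk1) (sub_nonneg.mpr hk2)),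
        mul_nonneg ha0 (mul_nonneg (sub_nonneg.mpr hk1) (sub_nonneg.mpr hk1)),
        mul_nonneg ha0 (mul_nonneg ha0 (sub_nonneg.mpr hk1)),
        mul_nonneg ha0 (mul_nonneg hk0 (sub_nonneg.mpr hk1))]
    omega
  · -- `k = u² / 2`
    have h := main_bound (t := t) (k := 2 ^ (2 * t - 1)) (n := n) (c := c) (by omega) le_rfl
      (by rw [hu2]; omega) hc
    rw [hodd', ← hu] at h
    have h0 : u * (u * (u * u)) ≤ (u + 2) * c := by
      calc u * (u * (u * u)) = (u * u) * (2 ^ (2 * t - 1) * 2) := by rw [heven]; ring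
        _ = 2 * (u * u) * 2 ^ (2 * t - 1) := by ring
        _ ≤ (u + 2) * c := h
    have h1 : 8 * (u * (u * u)) ≤ 9 * c := by
      have h2 : 8 * (u + 2) ≤ 9 * u := by omega
      have h3 : u * (8 * (u * (u * u))) ≤ u * (9 * c) := by
        calc u * (8 * (u * (u * u))) = 8 * (u * (u * (u * u))) := by ring
          _ ≤ 8 * ((u + 2) * c) := Nat.mul_le_mul_left _ h0
          _ = (8 * (u + 2)) * c := by ring
          _ ≤ (9 * u) * c := Nat.mul_le_mul_right _ h2
          _ = u * (9 * c) := by ring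
      exact Nat.le_of_mul_le_mul_left h3 (by omega)
    have h4 : 64 * (u * u) ^ 3 ≤ 81 * c ^ 2 := by
      calc 64 * (u * u) ^ 3 = (8 * (u * (u * u))) ^ 2 := by ring
        _ ≤ (9 * c) ^ 2 := Nat.pow_le_pow_left h1 2
        _ = 81 * c ^ 2 := by ring
    have h5 : 64 * n ^ 3 ≤ 4913 * (u * u) ^ 3 := by
      calc 64 * n ^ 3 = (4 * n) ^ 3 := by ring
        _ ≤ (17 * (u * u)) ^ 3 := Nat.pow_le_pow_left hup.le 3
        _ = 4913 * (u * u) ^ 3 := by ring
    generalize (u * u) ^ 3 = a at h4 h5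
    generalize n ^ 3 = b at h5 ⊢
    generalize c ^ 2 = d at h4 ⊢
    omega

end Pool.Agent.helper70.Sachs
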